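import Pool.Agent.Helper1.TE.Goals2

/-! Project TE (MP_8b4d68_lc), packet FU. -/

set_option autoImplicit false

namespace Pool.Agent.Helper18.TE

open Pool.Agent.Helper1.TE

theorem tf {w : List Bool} {i : ℕ} (h1 : w[i]? = some true) (h2 : w[i]? = some false) : False := by
  rw [h1] at h2
  simp at h2

theorem eq_h {w : List Bool} {h b h' b' : ℕ} (h1 : Pre w h b) (h2 : Pre w h' b') : h = h' := by
  rcases lt_trichotomy h h' with hlt | heq | hgt
  · exact (tf (h2.1 h hlt) h1.2.1).elim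
  · exact heq
  · exact (tf (h1.1 h' hgt) h2.2.1).elim

theorem le_b {ok : ℕ → ℕ → ℕ} {w : List Bool} {h b b' : ℕ} (h1 : Pre w h b) (h2 : Hdr ok w h b') :
    b ≤ b' := by
  by_contra hlt
  exact tf (h1.2.2 b' (by omega)) h2.2.1

theorem hdr_eq {ok : ℕ → ℕ → ℕ} {w : List Bool} {h b h' b' : ℕ} (h1 : Hdr ok w h b)
    (h2 : Hdr ok w h' b') : h = h' ∧ b = b' := by
  obtain rfl := eq_h h1.1 h2.1
  exact ⟨rfl, le_antisymm (le_b h1.1 h2) (le_b h2.1 h1)⟩

theorem gFU : GoalFU := by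
  intro ok w h b h' b' hF
  refine ⟨fun h1 => hdr_eq h1.1 hF.1, fun h1 => hdr_eq h1 hF.1, fun h1 => ?_, fun h1 => ?_⟩
  · obtain rfl := eq_h h1 hF.1.1
    exact ⟨rfl, le_b h1 hF.1⟩
  · by_contra hlt
    exact tf (h1 h' (by omega)) hF.1.1.2.1

end Pool.Agent.Helper18.TE
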