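import Pool.Agent.Helper1.TE.Goals3

/-! Project TE (MP_8b4d68_lc), packet LTI. -/

set_option autoImplicit false

namespace Pool.Agent.Helper18.TE

open Pool.Agent.Helper1.TE
open Pool.Agent.Helper65.LinSpace (dig tab nrec ifz eq01 le01 lt01 capPow Ctx LS)
open Finset

variable {α : Type} [Ctx α]

@[local fun_prop]
theorem ls_dgt {h τ l : α → ℕ} (hh : LS h) (hτ : LS τ) (hl : LS l) :
    LS (fun a => dgt (h a) (τ a) (l a)) := by
  unfold dgt
  fun_prop

@[local fun_prop]
theorem ls_rgt {d : α → ℕ} (hd : LS d) : LS (fun a => rgt (d a)) := by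
  unfold rgt
  fun_prop

theorem ls1 {f : α → ℕ} (hf : LS f) : LS (fun p : α × ℕ × ℕ => f p.1) :=
  LS.comp hf (by fun_prop)

theorem no2_le (h τ i : ℕ) : nrec 1 (fun i r => r * (1 - eq01 (dgt h τ i) 2)) i ≤ 1 := by
  induction i with
  | zero => exact le_rfl
  | succ i ih =>
    rw [Pool.Agent.Helper65.LinSpace.nrec_succ]
    calc nrec 1 (fun i r => r * (1 - eq01 (dgt h τ i) 2)) i * (1 - eq01 (dgt h τ i) 2)
        ≤ 1 * 1 := Nat.mul_le_mul ih (Nat.sub_le _ _)
      _ = 1 := by norm_num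

@[local fun_prop]
theorem ls_no2 {h τ l : α → ℕ} (hh : LS h) (hτ : LS τ) (hl : LS l) :
    LS (fun a => no2 (h a) (τ a) (l a)) := by
  unfold no2
  refine LS.nrec (G := fun _ => 1) (N := fun a => l a + 1) (C := fun _ => 1)
    (K := fun a i r => r * (1 - eq01 (dgt (h a) (τ a) i) 2)) (by fun_prop) (by fun_prop)
    (by fun_prop) ?_ fun a i _ => no2_le _ _ _
  have h1 := ls1 hh
  have h2 := ls1 hτ
  fun_prop

@[local fun_prop]
theorem ls_lvl {h τ : α → ℕ} (hh : LS h) (hτ : LS τ) : LS (fun a => lvl (h a) (τ a)) := by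
  unfold lvl
  have h1 : LS (fun p : α × ℕ => h p.1) := LS.comp hh (by fun_prop)
  have h2 : LS (fun p : α × ℕ => τ p.1) := LS.comp hτ (by fun_prop)
  refine LS.sum_le (f := fun a l => no2 (h a) (τ a) l) (B := fun _ => 1) (by fun_prop) hh
    (by fun_prop) fun a i _ => no2_le _ _ _

@[local fun_prop]
theorem ls_nodeN {h τ l W : α → ℕ} (hh : LS h) (hτ : LS τ) (hl : LS l) (hW : LS W) :
    LS (fun a => nodeN (h a) (τ a) (l a) (W a)) := by
  unfold nodeN
  refine LS.nrec (G := fun _ => 1) (N := l) (C := fun a => W a + 1)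
    (K := fun a i r => min (2 * r + rgt (dgt (h a) (τ a) i)) (W a)) (by fun_prop) hl
    (by fun_prop) ?_ fun a i _ => ?_
  · have h1 := ls1 hh
    have h2 := ls1 hτ
    have h3 := ls1 hW
    fun_prop
  · cases i with
    | zero =>
      rw [Pool.Agent.Helper65.LinSpace.nrec_zero]
      omega
    | succ i =>
      rw [Pool.Agent.Helper65.LinSpace.nrec_succ]
      exact (min_le_right _ _).trans (Nat.le_succ _)

@[local fun_prop]
theorem ls_tgN {h τ l : α → ℕ} (hh : LS h) (hτ : LS τ) (hl : LS l) :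
    LS (fun a => tgN (h a) (τ a) (l a)) := by
  unfold tgN
  refine LS.nrec (G := fun _ => 0) (N := l) (C := fun _ => 3)
    (K := fun a i r => (r + 1 + rgt (dgt (h a) (τ a) i)) % 3) (by fun_prop) hl
    (by fun_prop) ?_ fun a i _ => ?_
  · have h1 := ls1 hh
    have h2 := ls1 hτ
    fun_prop
  · cases i with
    | zero =>
      rw [Pool.Agent.Helper65.LinSpace.nrec_zero]
      omega
    | succ i =>
      rw [Pool.Agent.Helper65.LinSpace.nrec_succ]
      exact (Nat.mod_lt _ (by norm_num)).le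

@[local fun_prop]
theorem ls_trN {h τ l : α → ℕ} (hh : LS h) (hτ : LS τ) (hl : LS l) :
    LS (fun a => trN (h a) (τ a) (l a)) := by
  unfold trN
  fun_prop

@[local fun_prop]
theorem ls_kindN {h τ : α → ℕ} (hh : LS h) (hτ : LS τ) : LS (fun a => kindN (h a) (τ a)) := by
  unfold kindN
  have h1 : LS (fun a => τ a % 5 ^ (h a - 1 - lvl (h a) (τ a))) :=
    LS.modPow (q := fun _ => 5) (by fun_prop) hτ (by fun_prop)
  fun_prop

theorem gLTI : GoalLTI := by
  refine ⟨?_, ?_, ?_, ?_, ?_⟩ <;> fun_prop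

end Pool.Agent.Helper18.TE
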